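import Pool.Agent.Helper18.ZE.Defs

/-!
# ZE, piece N3: in a ring in which the primes dividing `a b` are units, `num` is a character
-/

set_option autoImplicit false

namespace Pool.Agent.Helper41.ZE

open Finset Pool.Agent.Helper18.ZE

theorem wv_mul (a b Q n p : ℕ) :
    (Q : ℤ) * wv a b Q n p = n * kv a b p - (n * kv a b p) % Q := by
  unfold wv
  have := Int.mul_ediv_add_emod ((n : ℤ) * kv a b p) Q
  linarith

/-- The exponents are positive. -/
theorem expo_pos {a b Q K C M r : ℕ} (hQ : 0 < Q) (hK : 0 < K) {n : Fin (r + 1) → ℕ} {v : Row r}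
    (hv : IsRow r Q C M n v) (p : ℕ) (hbox : ∀ i, box a b Q K (n i) p = box a b Q K (n 0) p) :
    0 < expo a b Q K C M r n v p := by
  obtain ⟨hsum, htq⟩ := hv
  have hQ' : (0 : ℤ) < Q := by exact_mod_cast hQ
  have hK' : (0 : ℤ) < K := by exact_mod_cast hK
  set k := kv a b p with hk
  set rho : Fin (r + 1) → ℤ := fun i => (n i * kv a b p) % Q with hrho
  set A : ℕ := (r + 1) * C with hA
  set β := box a b Q K (n 0) p with hβ
  -- bounds for `K * rho i`
  have hlo : ∀ i, β * Q ≤ K * rho i := by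
    intro i
    rw [← hbox i]
    exact Int.ediv_mul_le _ hQ'.ne'
  have hhi : ∀ i, K * rho i < (β + 1) * Q := by
    intro i
    rw [← hbox i]
    exact Int.lt_ediv_add_one_mul_self _ hQ'
  have hsum' : (∑ i, (v.1 i : ℤ)) = (A : ℤ) := by exact_mod_cast hsum
  have hS : (∑ i, ((v.1 i : ℤ) - C)) = 0 := by
    rw [Finset.sum_sub_distrib, hsum', hA]; simp
  have hbound : K * ∑ i, ((v.1 i : ℤ) - C) * rho i ≤ A * Q := by
    have e1 : K * ∑ i, ((v.1 i : ℤ) - C) * rho i =
        ∑ i, (v.1 i : ℤ) * (K * rho i - β * Q) - ∑ i, (C : ℤ) * (K * rho i - β * Q) := by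
      rw [← Finset.sum_sub_distrib, Finset.mul_sum]
      have e2 : ∑ i, ((v.1 i : ℤ) * (K * rho i - β * Q) - (C : ℤ) * (K * rho i - β * Q)) =
          ∑ i, (K * (((v.1 i : ℤ) - C) * rho i) - ((v.1 i : ℤ) - C) * (β * Q)) := by
        apply Finset.sum_congr rfl; intro i _; ring
      rw [e2, Finset.sum_sub_distrib, ← Finset.sum_mul, hS, zero_mul, sub_zero]
    have e3 : ∑ i, (v.1 i : ℤ) * (K * rho i - β * Q) ≤ ∑ i, (v.1 i : ℤ) * Q := by
      apply Finset.sum_le_sum
      intro i _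
      apply mul_le_mul_of_nonneg_left _ (by positivity)
      have := hhi i
      linarith
    have e4 : 0 ≤ ∑ i, (C : ℤ) * (K * rho i - β * Q) := by
      apply Finset.sum_nonneg
      intro i _
      apply mul_nonneg (by positivity)
      have := hlo i
      linarith
    have e5 : ∑ i, (v.1 i : ℤ) * Q = A * Q := by
      rw [← Finset.sum_mul, hsum']
    linarith
  have hexp : (Q : ℤ) * expo a b Q K C M r n v p =
      Q * (M * |k|) + Q * ((A / K + 1 : ℕ) : ℤ) + k * tq r Q C M n v -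
        ∑ i, ((v.1 i : ℤ) - C) * rho i := by
    unfold expo tq
    have e1 : (Q : ℤ) * ∑ i, ((v.1 i : ℤ) - C) * wv a b Q (n i) p =
        k * ∑ i, ((v.1 i : ℤ) - C) * n i - ∑ i, ((v.1 i : ℤ) - C) * rho i := by
      rw [Finset.mul_sum, Finset.mul_sum, ← Finset.sum_sub_distrib]
      apply Finset.sum_congr rfl
      intro i _
      have := wv_mul a b Q (n i) p
      calc (Q : ℤ) * (((v.1 i : ℤ) - C) * wv a b Q (n i) p) =
          ((v.1 i : ℤ) - C) * (Q * wv a b Q (n i) p) := by ring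
        _ = _ := by rw [this]; simp only [hrho, hk]; ring
    calc (Q : ℤ) * (M * |kv a b p| + (((r + 1) * C / K + 1 : ℕ) : ℤ) +
          ∑ i, ((v.1 i : ℤ) - C) * wv a b Q (n i) p -
          (((r + 1) * C + M : ℕ) - (v.2 : ℤ)) * kv a b p) =
        Q * (M * |k|) + Q * ((A / K + 1 : ℕ) : ℤ) +
          (Q : ℤ) * ∑ i, ((v.1 i : ℤ) - C) * wv a b Q (n i) p -
          Q * ((((r + 1) * C + M : ℕ) - (v.2 : ℤ)) * k) := by
            simp only [hA, hk]
            ring
      _ = _ := by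
            rw [e1]
            simp only [hA]
            ring
  have htk : -(M * Q * |k|) ≤ k * tq r Q C M n v := by
    have h1 : |k * tq r Q C M n v| ≤ |k| * (M * Q) := by
      rw [abs_mul]; exact mul_le_mul_of_nonneg_left htq (abs_nonneg _)
    have := neg_abs_le (k * tq r Q C M n v)
    nlinarith
  have hAK : (A : ℤ) < K * ((A / K + 1 : ℕ) : ℤ) := by
    exact_mod_cast Nat.lt_mul_div_succ A hK
  have hfin : 0 < (K : ℤ) * (Q * expo a b Q K C M r n v p) := by
    rw [hexp]
    have h1 : (K : ℤ) * (Q * (M * |k|) + Q * ((A / K + 1 : ℕ) : ℤ) + k * tq r Q C M n v -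
        ∑ i, ((v.1 i : ℤ) - C) * rho i) =
        K * (M * Q * |k| + k * tq r Q C M n v) + Q * (K * ((A / K + 1 : ℕ) : ℤ)) -
          K * ∑ i, ((v.1 i : ℤ) - C) * rho i := by ring
    rw [h1]
    have h2 : 0 ≤ (K : ℤ) * (M * Q * |k| + k * tq r Q C M n v) :=
      mul_nonneg hK'.le (by linarith)
    have h3 : (Q : ℤ) * A < Q * (K * ((A / K + 1 : ℕ) : ℤ)) := mul_lt_mul_of_pos_left hAK hQ'
    nlinarith
  have h8 := (mul_pos_iff_of_pos_left hK').1 hfin
  exact (mul_pos_iff_of_pos_left hQ').1 h8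

theorem expo_nonneg {a b Q K C M r : ℕ} (hQ : 0 < Q) (hK : 0 < K) {n : Fin (r + 1) → ℕ} {v : Row r}
    (hv : IsRow r Q C M n v) (p : ℕ) (hbox : ∀ i, box a b Q K (n i) p = box a b Q K (n 0) p) :
    0 ≤ expo a b Q K C M r n v p := (expo_pos hQ hK hv p hbox).le

/-- `wv + |kv|` is not negative. -/
theorem wv_add_nonneg {a b Q n p : ℕ} (hQ : 0 < Q) (hn : n ≤ Q) :
    0 ≤ wv a b Q n p + |kv a b p| := by
  have hQ' : (0 : ℤ) < Q := by exact_mod_cast hQ
  have hn' : (n : ℤ) ≤ Q := by exact_mod_cast hn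
  have hn0 : (0 : ℤ) ≤ n := by positivity
  have h1 : -|kv a b p| ≤ wv a b Q n p := by
    unfold wv
    rw [Int.le_ediv_iff_mul_le hQ']
    have h2 := neg_abs_le (kv a b p)
    have h3 := abs_nonneg (kv a b p)
    nlinarith
  linarith

theorem toNat_cast {R : Type} [CommRing R] (x : R) (U : Rˣ) (hU : (U : R) = x) (z : ℤ)
    (hz : 0 ≤ z) : x ^ z.toNat = ((U ^ z : Rˣ) : R) := by
  obtain ⟨m, rfl⟩ := Int.eq_ofNat_of_zero_le hz
  simp [hU]

/-- N3: in a ring in which the primes dividing `a b` are units, the numbers `num` are the values of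
a character. -/
theorem num_eq {a b Q K C M r : ℕ} (ha : 0 < a) (hb : 0 < b) (_hab : a.Coprime b) (hQ : 0 < Q)
    (hK : 0 < K) {n s : Fin (r + 1) → ℕ} (hn : ∀ i, n i ≤ Q)
    (hbox : ∀ i, ∀ p ∈ (a * b).primeFactors, box a b Q K (n i) p = box a b Q K (n 0) p)
    {R : Type} [CommRing R] (hR : ∀ p ∈ (a * b).primeFactors, IsUnit (p : R)) (κ : R)
    (hκ : κ * b = -a) :
    ∃ u : R, IsUnit u ∧ ∀ v : Row r, IsRow r Q C M n v →
      (num a b Q K C M r n s v : R) =
        u * (∏ i, (theta a b Q (n i) (s i) : R) ^ v.1 i) * κ ^ v.2 := by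
  classical
  set F := (a * b).primeFactors with hF
  -- the units
  let U : ℕ → Rˣ := fun p => if h : p ∈ F then (hR p h).unit else 1
  have hU : ∀ p ∈ F, ((U p : Rˣ) : R) = p := by
    intro p hp
    simp only [U, dif_pos hp]
    exact IsUnit.unit_spec _
  have hfac : ∀ m : ℕ, m ≠ 0 → m ∣ a * b → ((∏ p ∈ F, U p ^ (m.factorization p) : Rˣ) : R) = m := by
    intro m hm hmd
    have hab0 : a * b ≠ 0 := Nat.mul_ne_zero ha.ne' hb.ne'
    have h1 : (∏ p ∈ F, p ^ m.factorization p) = m := by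
      rw [hF]
      have h2 : ∏ p ∈ m.primeFactors, p ^ m.factorization p = m := by
        have := Nat.prod_factorization_pow_eq_self hm
        rwa [Finsupp.prod, Nat.support_factorization] at this
      conv_rhs => rw [← h2]
      symm
      apply Finset.prod_subset (Nat.primeFactors_mono hmd hab0)
      intro p _ hp
      have : m.factorization p = 0 := by
        rw [← Nat.support_factorization] at hp
        exact Finsupp.notMem_support_iff.1 hp
      rw [this, pow_zero]
    rw [Units.coe_prod]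
    conv_rhs => rw [← h1]
    push_cast
    apply Finset.prod_congr rfl
    intro p hp
    rw [hU p hp]
  have hκ' : κ = -((∏ p ∈ F, U p ^ (kv a b p) : Rˣ) : R) := by
    have h1 := hfac a ha.ne' (Dvd.intro _ rfl)
    have h2 := hfac b hb.ne' (Dvd.intro_left _ rfl)
    have h3 : (∏ p ∈ F, U p ^ (kv a b p) : Rˣ) * (∏ p ∈ F, U p ^ (b.factorization p)) =
        ∏ p ∈ F, U p ^ (a.factorization p) := by
      rw [← Finset.prod_mul_distrib]
      apply Finset.prod_congr rfl
      intro p _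
      rw [← zpow_natCast, ← zpow_natCast, ← zpow_add]
      congr 1
      unfold kv; ring
    have h4 : ((∏ p ∈ F, U p ^ (kv a b p) : Rˣ) : R) * b = a := by
      rw [← h2, ← Units.val_mul, h3, h1]
    have h5 : (κ + ((∏ p ∈ F, U p ^ (kv a b p) : Rˣ) : R)) * b = 0 := by
      rw [add_mul, hκ, h4]; ring
    have h6 : IsUnit (b : R) := by rw [← h2]; exact Units.isUnit _
    have h7 := (h6.mul_left_eq_zero).1 h5
    exact eq_neg_of_add_eq_zero_left h7
  set A : ℤ := (((r + 1) * C : ℕ) : ℤ) with hA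
  let E0 : ℕ → ℤ := fun p => M * |kv a b p| + ((r + 1) * C / K + 1 : ℕ) -
    C * ∑ i, wv a b Q (n i) p - (A + M) * kv a b p - A * |kv a b p|
  let W : Fin (r + 1) → Rˣ := fun i => ∏ p ∈ F, U p ^ (wv a b Q (n i) p + |kv a b p|)
  refine ⟨((∏ p ∈ F, U p ^ E0 p : Rˣ) : R), Units.isUnit _, ?_⟩
  intro v hv
  have hθ : ∀ i, (theta a b Q (n i) (s i) : R) = (s i : R) * (W i : R) := by
    intro i
    unfold theta
    rw [← hF]
    push_cast
    congr 1
    show _ = ((∏ p ∈ F, U p ^ (wv a b Q (n i) p + |kv a b p|) : Rˣ) : R)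
    rw [Units.coe_prod]
    apply Finset.prod_congr rfl
    intro p hp
    exact toNat_cast _ _ (hU p hp) _ (wv_add_nonneg hQ (hn i))
  have hE : ((∏ p ∈ F, p ^ (expo a b Q K C M r n v p).toNat : ℕ) : R) =
      ((∏ p ∈ F, U p ^ expo a b Q K C M r n v p : Rˣ) : R) := by
    rw [Units.coe_prod]
    push_cast
    apply Finset.prod_congr rfl
    intro p hp
    exact toNat_cast _ _ (hU p hp) _ (expo_nonneg hQ hK hv p (fun i => hbox i p hp))
  have hunits : (∏ p ∈ F, U p ^ expo a b Q K C M r n v p : Rˣ) =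
      (∏ p ∈ F, U p ^ E0 p) * (∏ i, W i ^ v.1 i) * (∏ p ∈ F, U p ^ kv a b p) ^ v.2 := by
    have e1 : (∏ i, W i ^ v.1 i) =
        ∏ p ∈ F, U p ^ (∑ i, (v.1 i : ℤ) * (wv a b Q (n i) p + |kv a b p|)) := by
      have : ∀ i, W i ^ v.1 i =
          ∏ p ∈ F, U p ^ ((v.1 i : ℤ) * (wv a b Q (n i) p + |kv a b p|)) := by
        intro i
        show (∏ p ∈ F, U p ^ (wv a b Q (n i) p + |kv a b p|)) ^ v.1 i = _
        rw [← Finset.prod_pow]
        apply Finset.prod_congr rfl
        intro p _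
        rw [← zpow_natCast, ← zpow_mul, mul_comm]
      rw [Finset.prod_congr rfl fun i _ => this i, Finset.prod_comm]
      apply Finset.prod_congr rfl
      intro p _
      induction (Finset.univ : Finset (Fin (r + 1))) using Finset.induction_on with
      | empty => simp
      | insert c t hc ih => rw [Finset.prod_insert hc, Finset.sum_insert hc, ih, zpow_add]
    have e2 : (∏ p ∈ F, U p ^ kv a b p) ^ v.2 = ∏ p ∈ F, U p ^ ((v.2 : ℤ) * kv a b p) := by
      rw [← Finset.prod_pow]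
      apply Finset.prod_congr rfl
      intro p _
      rw [← zpow_natCast, ← zpow_mul, mul_comm]
    rw [e1, e2, ← Finset.prod_mul_distrib, ← Finset.prod_mul_distrib]
    apply Finset.prod_congr rfl
    intro p _
    rw [← zpow_add, ← zpow_add]
    congr 1
    have hsum : (∑ i, (v.1 i : ℤ)) = A := by
      rw [hA, ← hv.1]
      push_cast
      rfl
    have e3 : ∑ i, (v.1 i : ℤ) * (wv a b Q (n i) p + |kv a b p|) =
        ∑ i, (v.1 i : ℤ) * wv a b Q (n i) p + A * |kv a b p| := by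
      rw [← hsum, Finset.sum_mul, ← Finset.sum_add_distrib]
      apply Finset.sum_congr rfl; intro i _; ring
    have e4 : ∑ i, ((v.1 i : ℤ) - C) * wv a b Q (n i) p =
        ∑ i, (v.1 i : ℤ) * wv a b Q (n i) p - C * ∑ i, wv a b Q (n i) p := by
      rw [Finset.mul_sum, ← Finset.sum_sub_distrib]
      apply Finset.sum_congr rfl; intro i _; ring
    unfold expo
    rw [e4, e3]
    simp only [E0, hA]
    push_cast
    ring
  unfold num
  push_cast
  have hE' : (∏ p ∈ F, (p : R) ^ (expo a b Q K C M r n v p).toNat) =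
      ((∏ p ∈ F, U p ^ expo a b Q K C M r n v p : Rˣ) : R) := by
    rw [← hE]; push_cast; rfl
  rw [hE', hunits, hκ']
  have hT : (∏ i, (theta a b Q (n i) (s i) : R) ^ v.1 i) =
      (∏ i, (s i : R) ^ v.1 i) * ∏ i, (W i : R) ^ v.1 i := by
    rw [← Finset.prod_mul_distrib]
    apply Finset.prod_congr rfl
    intro i _
    rw [hθ i, mul_pow]
  rw [hT]
  rw [neg_pow ((∏ p ∈ F, U p ^ kv a b p : Rˣ) : R)]
  simp only [Units.val_mul, Units.val_pow_eq_pow_val, Units.coe_prod]
  ring

end Pool.Agent.Helper41.ZE
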